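import Pool.Agent.helper7.AL.SpecM

set_option autoImplicit false

namespace Pool.Agent.AL

open Finset Pool.Agent.helper85.FC Pool.Agent.helper11.MK

lemma MUN_mono (m K K' : ℕ) (hKK : K ≤ K') (hT : TCM m K) : TCM m K' := by
  intro X Y hX hY h
  obtain ⟨X', hX', hXc⟩ := exists_subset_card_eq (show K ≤ #X by omega)
  obtain ⟨Y', hY', hYc⟩ := exists_subset_card_eq (show K ≤ #Y by omega)
  obtain ⟨x, hx, y, hy, hxy⟩ := hT X' Y' hXc hYc (fun x hx y hy => h x (hX' hx) y (hY' hy))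
  exact ⟨x, hX' hx, y, hY' hy, hxy⟩

lemma MUN_even (u : ℤ) (N : ℕ) : (#{c ∈ Ioc u (u + N) | Even c} : ℤ) ≤ ((N : ℤ) + 1) / 2 := by
  classical
  have h1 : #{c ∈ Ioc u (u + N) | Even c} ≤ #(Ioc (u / 2) ((u + N) / 2)) := by
    apply card_le_card_of_injOn (fun c => c / 2)
    · intro c hc
      obtain ⟨h2, h3⟩ := mem_filter.mp (mem_coe.mp hc)
      rw [mem_Ioc] at h2
      rw [Int.even_iff] at h3
      rw [mem_coe, mem_Ioc]
      beta_reduce
      omega
    · intro c hc c' hc' he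
      obtain ⟨h2, h3⟩ := mem_filter.mp (mem_coe.mp hc)
      obtain ⟨h2', h3'⟩ := mem_filter.mp (mem_coe.mp hc')
      rw [Int.even_iff] at h3 h3'
      simp only at he
      omega
  rw [Int.card_Ioc] at h1
  omega

open Classical in
lemma MUN_bad (m : ℕ) (u : ℤ) (N : ℕ) : (2 * #{c ∈ Ioc u (u + N) | BadM m c} : ℝ) ≤ N + 1 := by
  have h1 : #{c ∈ Ioc u (u + N) | BadM m c} ≤ #{c ∈ Ioc u (u + N) | Even c} := by
    apply card_le_card
    intro c hc
    rw [mem_filter] at hc ⊢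
    refine ⟨hc.1, ?_⟩
    obtain ⟨k, hk⟩ := hc.2.2.1
    refine ⟨(m : ℤ) * k, ?_⟩
    rw [hk]
    push_cast
    ring
  have h2 := MUN_even u N
  have h3 : (2 * #{c ∈ Ioc u (u + N) | BadM m c} : ℤ) ≤ N + 1 := by
    have h4 : (#{c ∈ Ioc u (u + N) | BadM m c} : ℤ) ≤ (#{c ∈ Ioc u (u + N) | Even c} : ℤ) := by
      exact_mod_cast h1
    omega
  exact_mod_cast h3

open Classical in
lemma MUN_one (m : ℕ) (u : ℤ) (N : ℕ) (hN : 1 ≤ N) (hN2 : N ≤ 2) :
    (#{c ∈ Ioc u (u + N) | BadM m c} : ℝ) ≤ 1 := by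
  have h1 := MUN_bad m u N
  have h2 : (2 * #{c ∈ Ioc u (u + N) | BadM m c} : ℕ) ≤ N + 1 := by exact_mod_cast h1
  have h3 : #{c ∈ Ioc u (u + N) | BadM m c} ≤ 1 := by omega
  exact_mod_cast h3

theorem MUN : MUN_stmt := by
  classical
  intro m K C hm hK hC hT hS
  obtain ⟨t0, ht0⟩ := pow_unbounded_of_one_lt C (by norm_num : (1 : ℝ) < 3 / 2)
  obtain ⟨t, ht, ht1⟩ : ∃ t : ℕ, C ≤ (3 / 2 : ℝ) ^ t ∧ 1 ≤ t := by
    refine ⟨t0 + 1, ?_, by omega⟩
    rw [pow_succ]
    have h1 : (0 : ℝ) < (3 / 2 : ℝ) ^ t0 := by positivity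
    linarith
  obtain ⟨K', hK'⟩ : ∃ K', K' = 2 * K * t := ⟨_, rfl⟩
  have hKt : 1 ≤ K * t := Nat.mul_pos hK ht1
  have hK'2 : 2 ≤ K' := by
    rw [hK', mul_assoc]
    omega
  have hKK' : K ≤ K' := by
    rw [hK', mul_assoc]
    have : K ≤ K * t := Nat.le_mul_of_pos_right _ ht1
    omega
  refine ⟨K', by omega, MUN_mono m K K' hKK' hT, ?_⟩
  intro u N
  rw [one_mul]
  have hK0 : (0 : ℝ) < K := by exact_mod_cast hK
  have hK'0 : (0 : ℝ) < K' := by
    have : 0 < K' := by omega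
    exact_mod_cast this
  have hK'r : (K' : ℝ) = 2 * K * t := by
    rw [hK']
    push_cast
    ring
  have ht0' : (1 : ℝ) ≤ t := by exact_mod_cast ht1
  have hinv : 1 / (K' : ℝ) ≤ 1 / 2 := by
    apply one_div_le_one_div_of_le (by norm_num)
    exact_mod_cast hK'2
  rcases Nat.eq_zero_or_pos N with hN0 | hN0
  · subst hN0
    have h1 : #{c ∈ Ioc u (u + ((0 : ℕ) : ℤ)) | BadM m c} = 0 := by
      rw [card_eq_zero, Nat.cast_zero, add_zero, Ioc_self, filter_empty]
    rw [h1]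
    push_cast
    positivity
  · have hNr : (1 : ℝ) ≤ N := by exact_mod_cast hN0
    have hNp : (0 : ℝ) < N := by linarith
    rcases Nat.lt_or_ge N 3 with hN3 | hN3
    · refine le_trans (MUN_one m u N hN0 (by omega)) ?_
      apply Real.one_le_rpow hNr
      linarith
    · rcases le_or_gt (N : ℝ) ((3 / 2 : ℝ) ^ K') with hle | hgt
      · have h1 : (N : ℝ) ^ (1 / (K' : ℝ)) ≤ 3 / 2 := by
          have h2 := Real.rpow_le_rpow hNp.le hle (by positivity : 0 ≤ 1 / (K' : ℝ))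
          rw [← Real.rpow_natCast, ← Real.rpow_mul (by norm_num), mul_one_div_cancel hK'0.ne', Real.rpow_one] at h2
          exact h2
        have h3 : (N : ℝ) ^ (1 - 1 / (K' : ℝ)) = N / (N : ℝ) ^ (1 / (K' : ℝ)) := by
          rw [Real.rpow_sub hNp, Real.rpow_one]
        have h4 : (0 : ℝ) < (N : ℝ) ^ (1 / (K' : ℝ)) := Real.rpow_pos_of_pos hNp _
        rw [h3, le_div_iff₀ h4]
        have h5 := MUN_bad m u N
        have h6 : (3 : ℝ) ≤ N := by exact_mod_cast hN3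
        have h7 : (0 : ℝ) ≤ #{c ∈ Ioc u (u + N) | BadM m c} := by positivity
        nlinarith
      · refine le_trans (hS u N) ?_
        have h1 : (N : ℝ) ^ (1 - 1 / (K' : ℝ)) = (N : ℝ) ^ (1 / (K : ℝ) - 1 / (K' : ℝ)) * (N : ℝ) ^ (1 - 1 / (K : ℝ)) := by
          rw [← Real.rpow_add hNp]
          apply congrArg
          ring
        rw [h1]
        apply mul_le_mul_of_nonneg_right _ (by positivity)
        refine le_trans ht ?_
        have h2 : (t : ℝ) / K' ≤ 1 / (K : ℝ) - 1 / (K' : ℝ) := by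
          have h3 : 1 / (K : ℝ) = 2 * t / K' := by
            rw [hK'r]
            field_simp
          rw [h3]
          rw [← sub_div]
          apply div_le_div_of_nonneg_right _ hK'0.le
          linarith
        refine le_trans ?_ (Real.rpow_le_rpow_of_exponent_le hNr h2)
        have h4 := Real.rpow_le_rpow (by positivity) hgt.le (by positivity : 0 ≤ (t : ℝ) / K')
        refine le_trans (le_of_eq ?_) h4
        rw [← Real.rpow_natCast (3 / 2 : ℝ) K', ← Real.rpow_mul (by norm_num), mul_div_cancel₀ _ hK'0.ne', Real.rpow_natCast]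

end Pool.Agent.AL
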