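import Pool.Agent.helper7.AL.SpecG

set_option autoImplicit false

namespace Pool.Agent.AL

open Finset Pool.Agent.helper85.FC Pool.Agent.helper11.MK

private lemma GFT_crt (S : Finset ℕ) (hS : ∀ l ∈ S, l.Prime) (f : ℕ → ℤ) :
    ∃ g : ℤ, ∀ l ∈ S, (l : ℤ) ∣ g - f l := by
  induction S using Finset.induction_on with
  | empty => exact ⟨0, fun l hl => absurd hl (Finset.notMem_empty l)⟩
  | insert l S hl ih =>
    obtain ⟨g', hg'⟩ := ih (fun q hq => hS q (Finset.mem_insert_of_mem hq))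
    have hlp : l.Prime := hS l (Finset.mem_insert_self l S)
    have hcop : IsCoprime (∏ q ∈ S, (q : ℤ)) (l : ℤ) := by
      apply IsCoprime.prod_left
      intro q hq
      have hqp : q.Prime := hS q (Finset.mem_insert_of_mem hq)
      rw [Nat.isCoprime_iff_coprime]
      apply (Nat.coprime_primes hqp hlp).mpr
      intro h
      rw [h] at hq
      exact hl hq
    obtain ⟨u, v, huv⟩ := hcop
    refine ⟨g' + u * (∏ q ∈ S, (q : ℤ)) * (f l - g'), ?_⟩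
    intro q hq
    rcases Finset.mem_insert.mp hq with h | h
    · subst h
      refine ⟨-(v * (f q - g')), ?_⟩
      have e1 : u * (∏ q ∈ S, (q : ℤ)) = 1 - v * q := by linarith
      rw [e1]
      ring
    · have h1 : (q : ℤ) ∣ ∏ q ∈ S, (q : ℤ) := Finset.dvd_prod_of_mem _ h
      have e1 : g' + u * (∏ q ∈ S, (q : ℤ)) * (f l - g') - f q =
          (g' - f q) + u * (∏ q ∈ S, (q : ℤ)) * (f l - g') := by ring
      rw [e1]
      exact dvd_add (hg' q h) (Dvd.dvd.mul_right (Dvd.dvd.mul_left h1 u) _)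

private lemma GFT_avoid {l : ℕ} [Fact l.Prime] (s : Finset (ZMod l × ZMod l))
    (h : ∀ q ∈ s, q.1 ≠ 0 ∨ q.2 ≠ 0) (hc : #s < l) : ∃ z : ZMod l, ∀ q ∈ s, q.1 * z + q.2 ≠ 0 := by
  classical
  have h1 : #(s.image (fun q => -q.2 / q.1)) < #(Finset.univ : Finset (ZMod l)) := by
    rw [Finset.card_univ, ZMod.card]
    exact lt_of_le_of_lt Finset.card_image_le hc
  obtain ⟨z, -, hz⟩ := Finset.exists_mem_notMem_of_card_lt_card h1
  refine ⟨z, fun q hq h0 => ?_⟩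
  have hq1 : q.1 ≠ 0 := by
    intro h2
    rcases h q hq with h3 | h3
    · exact h3 h2
    · apply h3
      rw [h2, zero_mul, zero_add] at h0
      exact h0
  apply hz
  refine Finset.mem_image.2 ⟨q, hq, ?_⟩
  rw [div_eq_iff hq1]
  linear_combination (-1 : ZMod l) * h0

private lemma GFT_loc (k a₀ b₀ A B : ℕ) (X Y : Finset ℤ) (c₁ : ℤ) (l : ℕ) (hl : l.Prime)
    (hAB : Nat.Coprime A B) (hX : #X = k) (hY : #Y = k) (hXn : X.Nonempty) (hYn : Y.Nonempty)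
    (hP : ∀ x ∈ X, ∀ y ∈ Y, Poss a₀ b₀ (a₀ * x - b₀ * y)) (hlk : 4 * k < l)
    (hB : l ∣ B → (∀ x ∈ X, ¬ (l : ℤ) ∣ b₀ * c₁ + A * x) ∧ ∀ y ∈ Y, ¬ (l : ℤ) ∣ a₀ * c₁ + A * y)
    (hA : l ∣ A → (∀ x ∈ X, ¬ (l : ℤ) ∣ b₀ * c₁ - B * x) ∧ ∀ y ∈ Y, ¬ (l : ℤ) ∣ a₀ * c₁ - B * y) :
    ∃ h h' : ℤ, (l : ℤ) ∣ c₁ - (A * h - B * h') ∧
      (∀ x ∈ X, ¬ (l : ℤ) ∣ b₀ * h + x ∧ ¬ (l : ℤ) ∣ b₀ * h' + x) ∧
      ∀ y ∈ Y, ¬ (l : ℤ) ∣ a₀ * h + y ∧ ¬ (l : ℤ) ∣ a₀ * h' + y := by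
  classical
  haveI : Fact l.Prime := ⟨hl⟩
  have hZ : ∀ n : ℤ, (l : ℤ) ∣ n ↔ ((n : ℤ) : ZMod l) = 0 := fun n =>
    (ZMod.intCast_zmod_eq_zero_iff_dvd n l).symm
  have hlu : ¬ IsUnit (l : ℤ) := by
    intro h
    exact hl.one_lt.ne' (by simpa [Int.isUnit_iff_natAbs_eq] using h)
  -- not both zero
  have hbx : ∀ x ∈ X, ((b₀ : ZMod l) ≠ 0 ∨ ((x : ℤ) : ZMod l) ≠ 0) := by
    intro x hx
    by_contra hcon
    push Not at hcon
    obtain ⟨h1, h2⟩ := hcon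
    obtain ⟨y, hy⟩ := hYn
    have h3 : (l : ℤ) ∣ (b₀ : ℤ) := by
      rw [hZ]
      push_cast
      exact h1
    have h4 : (l : ℤ) ∣ x := by rw [hZ]; exact h2
    have h5 := (hP x hx y hy).2.2.2.2.2.1
    have h6 : (l : ℤ) ∣ a₀ * x - b₀ * y := dvd_sub (Dvd.dvd.mul_left h4 _) (Dvd.dvd.mul_right h3 _)
    exact hlu (h5.isUnit_of_dvd' h3 h6)
  have hay : ∀ y ∈ Y, ((a₀ : ZMod l) ≠ 0 ∨ ((y : ℤ) : ZMod l) ≠ 0) := by
    intro y hy
    by_contra hcon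
    push Not at hcon
    obtain ⟨h1, h2⟩ := hcon
    obtain ⟨x, hx⟩ := hXn
    have h3 : (l : ℤ) ∣ (a₀ : ℤ) := by
      rw [hZ]
      push_cast
      exact h1
    have h4 : (l : ℤ) ∣ y := by rw [hZ]; exact h2
    have h5 := (hP x hx y hy).2.2.2.2.1
    have h6 : (l : ℤ) ∣ a₀ * x - b₀ * y := dvd_sub (Dvd.dvd.mul_right h3 _) (Dvd.dvd.mul_left h4 _)
    exact hlu (h5.isUnit_of_dvd' h3 h6)
  -- the forms in `h`
  set F : Finset (ZMod l × ZMod l) := X.image (fun x => ((b₀ : ZMod l), ((x : ℤ) : ZMod l))) ∪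
    Y.image (fun y => ((a₀ : ZMod l), ((y : ℤ) : ZMod l))) with hF
  have hFc : #F ≤ 2 * k := by
    have h1 := Finset.card_union_le (X.image (fun x => ((b₀ : ZMod l), ((x : ℤ) : ZMod l))))
      (Y.image (fun y => ((a₀ : ZMod l), ((y : ℤ) : ZMod l))))
    have h2 : #(X.image (fun x => ((b₀ : ZMod l), ((x : ℤ) : ZMod l)))) ≤ k := hX ▸ Finset.card_image_le
    have h3 : #(Y.image (fun y => ((a₀ : ZMod l), ((y : ℤ) : ZMod l)))) ≤ k := hY ▸ Finset.card_image_le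
    rw [hF]
    omega
  have hFn : ∀ q ∈ F, q.1 ≠ 0 ∨ q.2 ≠ 0 := by
    intro q hq
    rcases Finset.mem_union.1 hq with h | h
    · obtain ⟨x, hx, rfl⟩ := Finset.mem_image.1 h
      exact hbx x hx
    · obtain ⟨y, hy, rfl⟩ := Finset.mem_image.1 h
      exact hay y hy
  have hFX : ∀ z : ZMod l, (∀ q ∈ F, q.1 * z + q.2 ≠ 0) →
      (∀ x ∈ X, (b₀ : ZMod l) * z + ((x : ℤ) : ZMod l) ≠ 0) ∧
      ∀ y ∈ Y, (a₀ : ZMod l) * z + ((y : ℤ) : ZMod l) ≠ 0 := by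
    intro z hz
    refine ⟨fun x hx => ?_, fun y hy => ?_⟩
    · exact hz (_, _) (Finset.mem_union_left _ (Finset.mem_image_of_mem _ hx))
    · exact hz (_, _) (Finset.mem_union_right _ (Finset.mem_image_of_mem _ hy))
  -- it is enough to find classes
  suffices hs : ∃ z z' : ZMod l, ((c₁ : ℤ) : ZMod l) = (A : ZMod l) * z - (B : ZMod l) * z' ∧
      ((∀ x ∈ X, (b₀ : ZMod l) * z + ((x : ℤ) : ZMod l) ≠ 0) ∧
        ∀ y ∈ Y, (a₀ : ZMod l) * z + ((y : ℤ) : ZMod l) ≠ 0) ∧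
      ((∀ x ∈ X, (b₀ : ZMod l) * z' + ((x : ℤ) : ZMod l) ≠ 0) ∧
        ∀ y ∈ Y, (a₀ : ZMod l) * z' + ((y : ℤ) : ZMod l) ≠ 0) by
    obtain ⟨z, z', h1, ⟨h2, h3⟩, h4, h5⟩ := hs
    obtain ⟨h, rfl⟩ := ZMod.intCast_surjective z
    obtain ⟨h', rfl⟩ := ZMod.intCast_surjective z'
    refine ⟨h, h', ?_, fun x hx => ⟨?_, ?_⟩, fun y hy => ⟨?_, ?_⟩⟩
    · rw [hZ]
      push_cast
      rw [h1]
      ring
    · rw [hZ]
      push_cast
      exact h2 x hx
    · rw [hZ]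
      push_cast
      exact h4 x hx
    · rw [hZ]
      push_cast
      exact h3 y hy
    · rw [hZ]
      push_cast
      exact h5 y hy
  have hcast : ∀ n : ℕ, l ∣ n ↔ (n : ZMod l) = 0 := fun n => (ZMod.natCast_eq_zero_iff n l).symm
  by_cases hlB : l ∣ B
  · have hlA : (A : ZMod l) ≠ 0 := by
      intro h
      exact Nat.not_coprime_of_dvd_of_dvd hl.one_lt ((hcast A).2 h) hlB hAB
    have hB0 : (B : ZMod l) = 0 := (hcast B).1 hlB
    obtain ⟨h1, h2⟩ := hB hlB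
    obtain ⟨z', hz'⟩ := GFT_avoid F hFn (by omega)
    refine ⟨((c₁ : ℤ) : ZMod l) / (A : ZMod l), z', ?_, ⟨fun x hx h0 => ?_, fun y hy h0 => ?_⟩, hFX z' hz'⟩
    · rw [hB0]
      field_simp
      ring
    · apply h1 x hx
      rw [hZ]
      push_cast
      field_simp at h0
      linear_combination h0
    · apply h2 y hy
      rw [hZ]
      push_cast
      field_simp at h0
      linear_combination h0
  · have hlB' : (B : ZMod l) ≠ 0 := fun h => hlB ((hcast B).2 h)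
    by_cases hlA : l ∣ A
    · have hA0 : (A : ZMod l) = 0 := (hcast A).1 hlA
      obtain ⟨h1, h2⟩ := hA hlA
      obtain ⟨z, hz⟩ := GFT_avoid F hFn (by omega)
      refine ⟨z, -((c₁ : ℤ) : ZMod l) / (B : ZMod l), ?_, hFX z hz, fun x hx h0 => ?_, fun y hy h0 => ?_⟩
      · rw [hA0]
        field_simp
        ring
      · apply h1 x hx
        rw [hZ]
        push_cast
        field_simp at h0
        linear_combination -h0
      · apply h2 y hy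
        rw [hZ]
        push_cast
        field_simp at h0
        linear_combination -h0
    · have hlA' : (A : ZMod l) ≠ 0 := fun h => hlA ((hcast A).2 h)
      set G : Finset (ZMod l × ZMod l) := F.image (fun q => (q.1 * (A : ZMod l) / (B : ZMod l),
        q.2 - q.1 * ((c₁ : ℤ) : ZMod l) / (B : ZMod l))) with hG
      have hGc : #G ≤ 2 * k := le_trans Finset.card_image_le hFc
      have hGn : ∀ q ∈ G, q.1 ≠ 0 ∨ q.2 ≠ 0 := by
        intro q hq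
        obtain ⟨r, hr, rfl⟩ := Finset.mem_image.1 hq
        by_cases hr1 : r.1 = 0
        · right
          simp only [hr1, zero_mul, zero_div, sub_zero]
          rcases hFn r hr with h | h
          · exact absurd hr1 h
          · exact h
        · left
          exact div_ne_zero (mul_ne_zero hr1 hlA') hlB'
      have hk : 0 < k := hX ▸ Finset.card_pos.2 hXn
      obtain ⟨z, hz⟩ := GFT_avoid (F ∪ G) (by
        intro q hq
        rcases Finset.mem_union.1 hq with h | h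
        · exact hFn q h
        · exact hGn q h) (by
        have := Finset.card_union_le F G
        omega)
      refine ⟨z, ((A : ZMod l) * z - ((c₁ : ℤ) : ZMod l)) / (B : ZMod l), ?_,
        hFX z (fun q hq => hz q (Finset.mem_union_left _ hq)), hFX _ (fun q hq h0 => ?_)⟩
      · field_simp
        ring
      · apply hz _ (Finset.mem_union_right _ (Finset.mem_image_of_mem _ hq))
        simp only
        field_simp
        field_simp at h0
        linear_combination h0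

theorem GFT (h : SOL_stmt) : GFT_stmt := by
  intro k a b a₀ b₀ A B X Y g c₁ ha hb hAB hX hY hXn hYn hP hsm hc₁ hB hA
  classical
  obtain ⟨x₀, hx₀⟩ := id hXn
  obtain ⟨y₀, hy₀⟩ := id hYn
  have hpos := hP x₀ hx₀ y₀ hy₀
  have ha₀ : 0 < a₀ := hpos.1
  have hb₀ : 0 < b₀ := hpos.2.1
  have hne : a * b * (a₀ * b₀) ≠ 0 := by positivity
  set S : Finset ℕ := {l ∈ Finset.range (4 * k + 1) | l.Prime} ∪ (a * b * (a₀ * b₀)).primeFactors with hS
  have hSm : ∀ l : ℕ, l.Prime → (l ≤ 4 * k ∨ l ∣ a * b * (a₀ * b₀)) → l ∈ S := by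
    intro l hl hlc
    rcases hlc with h1 | h1
    · apply Finset.mem_union_left
      rw [Finset.mem_filter, Finset.mem_range]
      exact ⟨by omega, hl⟩
    · apply Finset.mem_union_right
      rw [Nat.mem_primeFactors]
      exact ⟨hl, h1, hne⟩
  have hSp : ∀ l ∈ S, l.Prime := by
    intro l hl
    rcases Finset.mem_union.1 hl with h1 | h1
    · exact (Finset.mem_filter.1 h1).2
    · exact Nat.prime_of_mem_primeFactors h1
  have hex : ∀ l : ℕ, ∃ v : ℤ × ℤ, l.Prime → (l : ℤ) ∣ c₁ - (A * v.1 - B * v.2) ∧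
      (∀ x ∈ X, ¬ (l : ℤ) ∣ b₀ * v.1 + x ∧ ¬ (l : ℤ) ∣ b₀ * v.2 + x) ∧
      ∀ y ∈ Y, ¬ (l : ℤ) ∣ a₀ * v.1 + y ∧ ¬ (l : ℤ) ∣ a₀ * v.2 + y := by
    intro l
    by_cases hl : l.Prime
    · by_cases hlk : l ≤ 4 * k
      · refine ⟨(g, g), fun _ => ⟨?_, ?_, ?_⟩⟩
        · have h1 : (l : ℤ) ∣ (((4 * k).factorial : ℕ) : ℤ) := by
            exact_mod_cast (hl.dvd_factorial).2 hlk
          exact h1.trans hc₁
        · exact fun x hx => ⟨(hsm l hl hlk).1 x hx, (hsm l hl hlk).1 x hx⟩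
        · exact fun y hy => ⟨(hsm l hl hlk).2 y hy, (hsm l hl hlk).2 y hy⟩
      · push Not at hlk
        obtain ⟨h₁, h₂, h3⟩ := GFT_loc k a₀ b₀ A B X Y c₁ l hl hAB hX hY hXn hYn hP hlk
          (hB l hl hlk) (hA l hl hlk)
        exact ⟨(h₁, h₂), fun _ => h3⟩
    · exact ⟨(0, 0), fun h1 => absurd h1 hl⟩
  choose x hx using hex
  obtain ⟨g₁, hg₁⟩ := GFT_crt S hSp (fun l => (x l).1)
  obtain ⟨g₂, hg₂⟩ := GFT_crt S hSp (fun l => (x l).2)
  have hdvd : ∀ l ∈ S, (l : ℤ) ∣ c₁ - (A * g₁ - B * g₂) := by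
    intro l hl
    have e1 : c₁ - (A * g₁ - B * g₂) = (c₁ - (A * (x l).1 - B * (x l).2)) - A * (g₁ - (x l).1) +
        B * (g₂ - (x l).2) := by ring
    rw [e1]
    exact dvd_add (dvd_sub (hx l (hSp l hl)).1 (Dvd.dvd.mul_left (hg₁ l hl) _))
      (Dvd.dvd.mul_left (hg₂ l hl) _)
  have hPd : ((∏ l ∈ S, l : ℕ) : ℤ) ∣ c₁ - (A * g₁ - B * g₂) := by
    rw [Nat.cast_prod]
    apply Finset.prod_dvd_of_coprime _ hdvd
    intro p hp q hq hpq
    rw [Function.onFun, Nat.isCoprime_iff_coprime]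
    exact (Nat.coprime_primes (hSp p hp) (hSp q hq)).mpr hpq
  obtain ⟨k₁, k₂, hk₁, hk₂, hkc⟩ := h A B _ g₁ g₂ c₁ hAB hPd
  refine ⟨k₁, k₂, hkc, ?_⟩
  intro l hl hld
  have hlm : l ∈ S := hSm l hl hld
  have hlP : (l : ℤ) ∣ ((∏ l ∈ S, l : ℕ) : ℤ) := by
    exact_mod_cast Finset.dvd_prod_of_mem _ hlm
  have h1 : (l : ℤ) ∣ k₁ - (x l).1 := by
    have e1 : k₁ - (x l).1 = (k₁ - g₁) + (g₁ - (x l).1) := by ring
    rw [e1]
    exact dvd_add (hlP.trans hk₁) (hg₁ l hlm)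
  have h2 : (l : ℤ) ∣ k₂ - (x l).2 := by
    have e1 : k₂ - (x l).2 = (k₂ - g₂) + (g₂ - (x l).2) := by ring
    rw [e1]
    exact dvd_add (hlP.trans hk₂) (hg₂ l hlm)
  have hgen : ∀ (c : ℕ) (z w v : ℤ), (l : ℤ) ∣ z - w → ¬ (l : ℤ) ∣ c * w + v → ¬ (l : ℤ) ∣ c * z + v := by
    intro c z w v hzw hn hh
    apply hn
    have e1 : c * w + v = (c * z + v) - c * (z - w) := by ring
    rw [e1]
    exact dvd_sub hh (Dvd.dvd.mul_left hzw _)
  obtain ⟨-, n1, n2⟩ := hx l hl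
  exact ⟨fun z hz => ⟨hgen _ _ _ _ h1 (n1 z hz).1, hgen _ _ _ _ h2 (n1 z hz).2⟩,
    fun z hz => ⟨hgen _ _ _ _ h1 (n2 z hz).1, hgen _ _ _ _ h2 (n2 z hz).2⟩⟩

end Pool.Agent.AL
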