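import Pool.Agent.helper7.AL.SpecG

set_option autoImplicit false

namespace Pool.Agent.AL

open Finset Pool.Agent.helper85.FC Pool.Agent.helper11.MK

private lemma GWN_av (l n : ℕ) (r c v : ℤ) (hr : ¬ l ∣ n → (l : ℤ) ∣ n * r - 1)
    (h1 : ¬ (l : ℤ) ∣ c - (-(r * v))) (h2 : l ∣ n → ¬ (l : ℤ) ∣ v) : ¬ (l : ℤ) ∣ n * c + v := by
  intro h
  by_cases hn : l ∣ n
  · apply h2 hn
    have h3 : (l : ℤ) ∣ (n : ℤ) * c := Dvd.dvd.mul_right (Int.natCast_dvd_natCast.2 hn) _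
    exact (dvd_add_right h3).1 h
  · apply h1
    have e1 : c - (-(r * v)) = r * (n * c + v) - (n * r - 1) * c := by ring
    rw [e1]
    exact dvd_sub (Dvd.dvd.mul_left h _) (Dvd.dvd.mul_right (hr hn) _)

theorem GWN (hGHS : GHS_stmt) (hJAC : JAC_stmt) (hGFT : GFT_stmt) (hGLC : GLC_stmt) (hGGP : GGP_stmt) :
    GWN_stmt := by
  classical
  intro k a₀ b₀ X Y α β hk hBlc ha₀ hb₀ hab₀ hX hY hα hβ hbad
  have hXn : X.Nonempty := Finset.card_pos.1 (by omega)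
  have hYn : Y.Nonempty := Finset.card_pos.1 (by omega)
  have hP : ∀ x ∈ X, ∀ y ∈ Y, Poss a₀ b₀ (a₀ * x - b₀ * y) := fun x hx y hy => (hbad x hx y hy).1
  obtain ⟨g, hg⟩ := hGHS (4 * k) a₀ b₀ X Y α β hXn hYn hα hβ hP
  obtain ⟨C₁, hC₁⟩ := hJAC (2 * k) (by omega)
  have hkk : 2 * (2 * k) = 4 * k := by ring
  rw [hkk] at hC₁
  obtain ⟨D, hD⟩ : ∃ D : ℕ, ∀ z ∈ X ∪ Y, |z| ≤ (D : ℤ) := by
    refine ⟨∑ z ∈ X ∪ Y, z.natAbs, ?_⟩
    intro z hz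
    have h1 : z.natAbs ≤ ∑ z ∈ X ∪ Y, z.natAbs :=
      Finset.single_le_sum (f := fun z : ℤ => z.natAbs) (fun _ _ => Nat.zero_le _) hz
    rw [Int.abs_eq_natAbs z]
    exact_mod_cast h1
  have hinv : ∀ l n : ℕ, ∃ r : ℤ, l.Prime → ¬ l ∣ n → (l : ℤ) ∣ n * r - 1 := by
    intro l n
    by_cases hl : l.Prime ∧ ¬ l ∣ n
    · have h1 : IsCoprime (n : ℤ) (l : ℤ) := by
        rw [Nat.isCoprime_iff_coprime]
        exact ((Nat.Prime.coprime_iff_not_dvd hl.1).2 hl.2).symm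
      obtain ⟨u, v, huv⟩ := h1
      refine ⟨u, fun _ _ => ⟨-v, ?_⟩⟩
      linear_combination huv
    · exact ⟨0, fun h1 h2 => absurd ⟨h1, h2⟩ hl⟩
  choose r hr using hinv
  refine ⟨C₁, D, ?_⟩
  intro a b ha hb hab u hu
  set A : ℕ := lo (a * a₀) (b * b₀) with hAdef
  set B : ℕ := lo (b * b₀) (a * a₀) with hBdef
  have haa : 0 < a * a₀ := Nat.mul_pos ha ha₀
  have hbb : 0 < b * b₀ := Nat.mul_pos hb hb₀
  have hgpos : 0 < Nat.gcd (a * a₀) (b * b₀) := Nat.gcd_pos_of_pos_left _ haa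
  have hcop : Nat.Coprime A B := by
    have h1 := Nat.coprime_div_gcd_div_gcd hgpos
    rw [hAdef, hBdef, lo, lo, Nat.gcd_comm (b * b₀) (a * a₀)]
    exact h1
  have hApos : 0 < A := by
    rw [hAdef, lo]
    exact Nat.div_pos (Nat.le_of_dvd haa (Nat.gcd_dvd_left _ _)) hgpos
  have hBpos : 0 < B := by
    rw [hBdef, lo, Nat.gcd_comm (b * b₀) (a * a₀)]
    exact Nat.div_pos (Nat.le_of_dvd hbb (Nat.gcd_dvd_right _ _)) hgpos
  obtain ⟨c₁, hc1, hc2, hc3, hc4⟩ := hC₁ (A * B) (A * g - B * g)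
    (fun l => if l ∣ B then X.image (fun x => -(r l b₀ * (A * x))) ∪ Y.image (fun y => -(r l a₀ * (A * y)))
      else X.image (fun x => -(r l b₀ * (-(B * x)))) ∪ Y.image (fun y => -(r l a₀ * (-(B * y)))))
    (Nat.mul_pos hApos hBpos) (by
      intro l
      by_cases hl : l ∣ B
      · simp only [hl, if_true]
        refine (card_union_le _ _).trans ?_
        have h1 : #(X.image (fun x => -(r l b₀ * (A * x)))) ≤ k := hX ▸ card_image_le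
        have h2 : #(Y.image (fun y => -(r l a₀ * (A * y)))) ≤ k := hY ▸ card_image_le
        omega
      · simp only [hl, if_false]
        refine (card_union_le _ _).trans ?_
        have h1 : #(X.image (fun x => -(r l b₀ * (-(B * x))))) ≤ k := hX ▸ card_image_le
        have h2 : #(Y.image (fun y => -(r l a₀ * (-(B * y))))) ≤ k := hY ▸ card_image_le
        omega) u
  have hlu : ∀ l : ℕ, l.Prime → ¬ IsUnit (l : ℤ) := by
    intro l hl h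
    exact hl.one_lt.ne' (by simpa [Int.isUnit_iff_natAbs_eq] using h)
  have hbx : ∀ l : ℕ, l.Prime → l ∣ b₀ → ∀ x ∈ X, ¬ (l : ℤ) ∣ x := by
    intro l hl hlb x hx hlx
    obtain ⟨y, hy⟩ := hYn
    have h5 := (hP x hx y hy).2.2.2.2.2.1
    have h3 : (l : ℤ) ∣ (b₀ : ℤ) := Int.natCast_dvd_natCast.2 hlb
    have h6 : (l : ℤ) ∣ a₀ * x - b₀ * y := dvd_sub (Dvd.dvd.mul_left hlx _) (Dvd.dvd.mul_right h3 _)
    exact hlu l hl (h5.isUnit_of_dvd' h3 h6)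
  have hay : ∀ l : ℕ, l.Prime → l ∣ a₀ → ∀ y ∈ Y, ¬ (l : ℤ) ∣ y := by
    intro l hl hla y hy hly
    obtain ⟨x, hx⟩ := hXn
    have h5 := (hP x hx y hy).2.2.2.2.1
    have h3 : (l : ℤ) ∣ (a₀ : ℤ) := Int.natCast_dvd_natCast.2 hla
    have h6 : (l : ℤ) ∣ a₀ * x - b₀ * y := dvd_sub (Dvd.dvd.mul_right h3 _) (Dvd.dvd.mul_left hly _)
    exact hlu l hl (h5.isUnit_of_dvd' h3 h6)
  have hmem : ∀ l : ℕ, l.Prime → l ∣ A * B → l ∈ (A * B).primeFactors := fun l hl hd =>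
    Nat.mem_primeFactors.2 ⟨hl, hd, (Nat.mul_pos hApos hBpos).ne'⟩
  have hmulnd : ∀ (l n : ℕ) (z : ℤ), l.Prime → ¬ l ∣ n → ¬ (l : ℤ) ∣ z → ¬ (l : ℤ) ∣ n * z := by
    intro l n z hl h1 h2 h3
    rcases (Nat.prime_iff_prime_int.1 hl).dvd_or_dvd h3 with h | h
    · exact h1 (Int.natCast_dvd_natCast.1 h)
    · exact h2 h
  have hcB : ∀ l : ℕ, l.Prime → 4 * k < l → l ∣ B →
      (∀ x ∈ X, ¬ (l : ℤ) ∣ b₀ * c₁ + A * x) ∧ ∀ y ∈ Y, ¬ (l : ℤ) ∣ a₀ * c₁ + A * y := by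
    intro l hl hlk hlB
    have hlA : ¬ l ∣ A := fun h => Nat.not_coprime_of_dvd_of_dvd hl.one_lt h hlB hcop
    have h0 := hc4 l (hmem l hl (hlB.mul_left A)) hlk
    simp only [hlB, if_true] at h0
    refine ⟨fun x hx => ?_, fun y hy => ?_⟩
    · exact GWN_av l b₀ (r l b₀) c₁ (A * x) (hr l b₀ hl)
        (h0 _ (mem_union_left _ (mem_image_of_mem _ hx)))
        (fun hlb => hmulnd l A x hl hlA (hbx l hl hlb x hx))
    · exact GWN_av l a₀ (r l a₀) c₁ (A * y) (hr l a₀ hl)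
        (h0 _ (mem_union_right _ (mem_image_of_mem _ hy)))
        (fun hla => hmulnd l A y hl hlA (hay l hl hla y hy))
  have hcA : ∀ l : ℕ, l.Prime → 4 * k < l → l ∣ A →
      (∀ x ∈ X, ¬ (l : ℤ) ∣ b₀ * c₁ - B * x) ∧ ∀ y ∈ Y, ¬ (l : ℤ) ∣ a₀ * c₁ - B * y := by
    intro l hl hlk hlA
    have hlB : ¬ l ∣ B := fun h => Nat.not_coprime_of_dvd_of_dvd hl.one_lt hlA h hcop
    have h0 := hc4 l (hmem l hl (hlA.mul_right B)) hlk
    simp only [hlB, if_false] at h0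
    refine ⟨fun x hx => ?_, fun y hy => ?_⟩
    · rw [sub_eq_add_neg]
      exact GWN_av l b₀ (r l b₀) c₁ (-(B * x)) (hr l b₀ hl)
        (h0 _ (mem_union_left _ (mem_image_of_mem _ hx)))
        (fun hlb => fun h => hmulnd l B x hl hlB (hbx l hl hlb x hx) ((dvd_neg).1 h))
    · rw [sub_eq_add_neg]
      exact GWN_av l a₀ (r l a₀) c₁ (-(B * y)) (hr l a₀ hl)
        (h0 _ (mem_union_right _ (mem_image_of_mem _ hy)))
        (fun hla => fun h => hmulnd l B y hl hlB (hay l hl hla y hy) ((dvd_neg).1 h))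
  obtain ⟨h, h', hh, hcond⟩ := hGFT k a b a₀ b₀ A B X Y g c₁ ha hb hcop hX hY hXn hYn hP hg hc3 hcB hcA
  have hAd : AdG a b a₀ b₀ X Y h h' := hGLC k a b a₀ b₀ X Y h h' hX hY hcond
  refine ⟨c₁, hc1, ?_, ?_⟩
  · have h1 : √(((A * B : ℕ)) : ℝ) ≤ (A : ℝ) + B := by
      rw [Real.sqrt_le_iff]
      have ha' : (0 : ℝ) ≤ A := Nat.cast_nonneg A
      have hb' : (0 : ℝ) ≤ B := Nat.cast_nonneg B
      refine ⟨by positivity, ?_⟩
      push_cast
      nlinarith [mul_nonneg ha' hb']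
    have h2 : (C₁ : ℝ) * √(((A * B : ℕ)) : ℝ) ≤ C₁ * ((A : ℝ) + B) :=
      mul_le_mul_of_nonneg_left h1 (Nat.cast_nonneg C₁)
    have h3 : (c₁ : ℝ) ≤ u + C₁ * ((A : ℝ) + B) := hc2.trans (by linarith)
    exact_mod_cast h3
  · have h4 := hGGP k a b a₀ b₀ D X Y h h' hBlc ha hb hab ha₀ hb₀ hab₀ hX hY
      (fun x hx => hD x (mem_union_left _ hx)) (fun y hy => hD y (mem_union_right _ hy)) hbad hAd
      (by
        rw [← hAdef, ← hBdef, hh]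
        exact lt_of_le_of_lt hu hc1)
    rw [← hAdef, ← hBdef, hh] at h4
    exact h4

end Pool.Agent.AL
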