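import Pool.Agent.helper7.AL.SpecL

/-! Project AL, row LQP: pigeonhole modulo `W`, then translation. -/

set_option autoImplicit false

namespace Pool.Agent.LD

open Finset Pool.Agent.helper85.FC Pool.Agent.AT

lemma LQP_pig (S : Finset ℤ) (K W : ℕ) (hW : 1 ≤ W) (hS : K * W ≤ #S) :
    ∃ T ⊆ S, #T = K ∧ ∀ x ∈ T, ∀ y ∈ T, (W : ℤ) ∣ x - y := by
  have hW0 : (0 : ℤ) < W := by exact_mod_cast hW
  have h1 : ∀ x ∈ S, (fun x : ℤ => (x % (W : ℤ)).toNat) x ∈ range W := by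
    intro x _
    have h2 := Int.emod_nonneg x hW0.ne'
    have h3 := Int.emod_lt_of_pos x hW0
    beta_reduce
    rw [mem_range]
    omega
  obtain ⟨y, _, hy⟩ := exists_le_card_fiber_of_mul_le_card_of_maps_to (n := K) h1
    ⟨0, mem_range.2 (by omega)⟩ (by rw [card_range, Nat.mul_comm]; exact hS)
  obtain ⟨T, hT, hTc⟩ := exists_subset_card_eq hy
  refine ⟨T, fun x hx => (mem_filter.1 (hT hx)).1, hTc, ?_⟩
  intro x hx z hz
  have h2 : (x % (W : ℤ)).toNat = y := (mem_filter.1 (hT hx)).2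
  have h3 : (z % (W : ℤ)).toNat = y := (mem_filter.1 (hT hz)).2
  have h4 := Int.emod_nonneg x hW0.ne'
  have h5 := Int.emod_nonneg z hW0.ne'
  have h6 : x % (W : ℤ) = z % (W : ℤ) := by omega
  exact (Int.ModEq.dvd (show z ≡ x [ZMOD (W : ℤ)] from h6.symm))

lemma LQP_adm {k : ℕ} (h : Fin k → ℤ) (z : ℤ) (hA : Adm (fo (fun _ => 1) (fun i => h i + z))) :
    Adm (fo (fun _ => 1) h) := by
  intro p hp
  obtain ⟨n, hn⟩ := hA p hp
  have hp0 : (0 : ℤ) < p := by exact_mod_cast hp.pos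
  refine ⟨(((n : ℤ) + z) % (p : ℤ)).toNat, fun i hi => hn i ?_⟩
  have h1 := Int.emod_nonneg ((n : ℤ) + z) hp0.ne'
  have h2 : (p : ℤ) ∣ ((1 : ℕ) : ℤ) * ((((n : ℤ) + z) % (p : ℤ)).toNat : ℤ) + h i := hi
  rw [Int.toNat_of_nonneg h1] at h2
  show (p : ℤ) ∣ ((1 : ℕ) : ℤ) * (n : ℤ) + (h i + z)
  have h3 : (p : ℤ) ∣ ((n : ℤ) + z) - ((n : ℤ) + z) % (p : ℤ) := Int.dvd_self_sub_emod
  have h4 := dvd_add h2 h3
  have h5 : ((1 : ℕ) : ℤ) * (((n : ℤ) + z) % (p : ℤ)) + h i + (((n : ℤ) + z) - ((n : ℤ) + z) % (p : ℤ)) =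
      ((1 : ℕ) : ℤ) * (n : ℤ) + (h i + z) := by
    push_cast
    ring
  rw [h5] at h4
  exact h4

lemma LQP_many {k : ℕ} (θ : ℝ) (h : Fin k → ℤ) (z : ℤ) (hM : ManyT θ (fo (fun _ => 1) h)) :
    ManyT θ (fo (fun _ => 1) (fun i => h i + z)) := by
  intro N
  obtain ⟨n, hn, hθ⟩ := hM (N + z.natAbs)
  have h1 : 0 ≤ (n : ℤ) - z := by omega
  refine ⟨((n : ℤ) - z).toNat, by omega, ?_⟩
  have h2 : hits (fo (fun _ => 1) (fun i => h i + z)) ((n : ℤ) - z).toNat = hits (fo (fun _ => 1) h) n := by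
    unfold hits
    refine congrArg card (filter_congr fun i _ => ?_)
    have h3 : ev (fo (fun _ => 1) (fun i => h i + z) i) ((n : ℤ) - z).toNat = ev (fo (fun _ => 1) h i) n := by
      show (((1 : ℕ) : ℤ) * (((n : ℤ) - z).toNat : ℤ) + (h i + z)).toNat = (((1 : ℕ) : ℤ) * (n : ℤ) + h i).toNat
      rw [Int.toNat_of_nonneg h1]
      apply congrArg
      push_cast
      ring
    rw [h3]
  rw [h2]
  exact hθ

theorem LQP : LQP_stmt := by
  intro θ q k K W hk hK hW hB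
  unfold BoxQ at hB
  push Not at hB
  obtain ⟨H, hH, hq, hA, hM⟩ := hB
  choose S hS hSc hSW using fun i => LQP_pig (H i) K W hW (hH i)
  obtain ⟨z, hz⟩ : (S ⟨0, hk⟩).Nonempty := by
    rw [← card_pos, hSc]
    omega
  refine ⟨fun i => (S i).image (fun x => x - z), ?_, ?_, ?_, ?_⟩
  · intro i
    show #((S i).image (fun x => x - z)) = K
    rw [card_image_of_injective _ (sub_left_injective), hSc]
  · intro i x hx y hy
    obtain ⟨x', hx', rfl⟩ := mem_image.1 hx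
    obtain ⟨y', hy', rfl⟩ := mem_image.1 hy
    have h1 := hSW i x' hx' y' hy'
    have h2 : x' - z - (y' - z) = x' - y' := by ring
    rw [h2]
    exact h1
  · intro i x hx
    obtain ⟨x', hx', rfl⟩ := mem_image.1 hx
    exact hq i ⟨0, hk⟩ x' (hS i hx') z (hS _ hz)
  · intro h hh
    have h1 : (fun i => h i + z) ∈ Fintype.piFinset H := by
      rw [Fintype.mem_piFinset] at hh ⊢
      intro i
      obtain ⟨x', hx', he⟩ := mem_image.1 (hh i)
      have h2 : h i + z = x' := by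
        rw [← he]
        ring
      rw [h2]
      exact hS i hx'
    obtain ⟨h2, h3⟩ := hA _ h1
    refine ⟨LQP_adm h z h2, ?_, ?_⟩
    · intro i j hij
      apply h3
      show h i + z = h j + z
      rw [hij]
    · intro h4
      exact hM _ h1 (LQP_many θ h z h4)

end Pool.Agent.LD
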